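import Mathlib.Combinatorics.SimpleGraph.Acyclic
import Mathlib.Data.Fintype.Powerset
import Mathlib.Data.Real.Basic
import Mathlib.Tactic

/-!
# Edge marginals of uniform connected subgraphs of fixed excess are not monotone

The graph is a chain of five triangles closed by one further edge `e` (11 vertices, 16 edges):
hubs `h_0, …, h_5`, further vertices `w_0, …, w_4`, triangles `h_i h_{i+1} w_i` and `e = h_0 h_5`.
The edge `e` has probability `810/1053` in the uniform spanning tree and `1323/1728` in the uniform
connected spanning subgraph with one cycle.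
-/

set_option autoImplicit false

namespace Pool.Agent.Results.MP_7fb2f0_pr.TriangleChain

open Finset

/-- The connected spanning subgraphs of `G` with excess `k`, i.e. with exactly `|V| + k` edges. -/
def connSub {V : Type} [Fintype V] (G : SimpleGraph V) (k : ℤ) : Set (SimpleGraph V) :=
  {H | H ≤ G ∧ H.Connected ∧ (H.edgeSet.ncard : ℤ) = Fintype.card V + k}

/-- `p_e(k)`: the probability that the edge `e` belongs to a uniformly random connected spanning
subgraph of `G` with excess `k`. -/
noncomputable def marg {V : Type} [Fintype V] (G : SimpleGraph V) (k : ℤ) (e : Sym2 V) : ℝ :=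
  ({H | H ∈ connSub G k ∧ e ∈ H.edgeSet}.ncard : ℝ) / ((connSub G k).ncard : ℝ)

/-- vertices: six hubs and five further vertices -/
abbrev VV := Fin 6 ⊕ Fin 5

/-- names of the edges -/
abbrev P := Option (Fin 5 × Fin 3)

/-- the edges: `none` is `h_0 h_5`; `(i,0)` is `h_i h_{i+1}`, `(i,1)` is `h_i w_i`,
`(i,2)` is `w_i h_{i+1}` -/
def pe : P → Sym2 VV
  | none => s(Sum.inl 0, Sum.inl 5)
  | some (i, 0) => s(Sum.inl i.castSucc, Sum.inl i.succ)
  | some (i, 1) => s(Sum.inl i.castSucc, Sum.inr i)
  | some (i, 2) => s(Sum.inr i, Sum.inl i.succ)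

theorem pe_inj : Function.Injective pe := by decide

theorem pe_diag : ∀ q, ¬ (pe q).IsDiag := by decide

/-- the spanning subgraph with the edges named in `S` -/
def gr (S : Finset P) : SimpleGraph VV := SimpleGraph.fromEdgeSet (pe '' (S : Set P))

theorem gr_edgeSet (S : Finset P) : (gr S).edgeSet = pe '' (S : Set P) := by
  unfold gr
  rw [SimpleGraph.edgeSet_fromEdgeSet]
  ext e
  constructor
  · exact fun h => h.1
  · rintro ⟨q, hq, rfl⟩
    exact ⟨⟨q, hq, rfl⟩, pe_diag q⟩

theorem mem_gr (S : Finset P) (q : P) : pe q ∈ (gr S).edgeSet ↔ q ∈ S := by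
  rw [gr_edgeSet]
  constructor
  · rintro ⟨q', hq', h⟩
    rw [← pe_inj h]
    exact hq'
  · exact fun h => ⟨q, h, rfl⟩

theorem gr_ncard (S : Finset P) : (gr S).edgeSet.ncard = S.card := by
  rw [gr_edgeSet, Set.ncard_image_of_injective _ pe_inj, Set.ncard_coe_finset]

theorem gr_mono {S T : Finset P} (h : S ⊆ T) : gr S ≤ gr T := by
  rw [← SimpleGraph.edgeSet_subset_edgeSet, gr_edgeSet, gr_edgeSet]
  exact Set.image_mono (by exact_mod_cast h)

theorem gr_injective : Function.Injective gr := by
  intro S T h
  ext q
  rw [← mem_gr, ← mem_gr, h]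

/-- the graph -/
def K : SimpleGraph VV := gr univ

open Classical in
theorem exists_gr (H : SimpleGraph VV) (h : H ≤ K) : ∃ S, gr S = H := by
  refine ⟨univ.filter (fun q => pe q ∈ H.edgeSet), ?_⟩
  rw [← SimpleGraph.edgeSet_inj, gr_edgeSet]
  ext e
  constructor
  · rintro ⟨q, hq, rfl⟩
    simpa using hq
  · intro he
    have h1 := SimpleGraph.edgeSet_subset_edgeSet.2 h he
    unfold K at h1
    rw [gr_edgeSet] at h1
    obtain ⟨q, -, rfl⟩ := h1
    exact ⟨q, by simpa using he, rfl⟩

theorem adj_of (S : Finset P) {q : P} (hq : q ∈ S) {u v : VV} (h : pe q = s(u, v)) :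
    (gr S).Adj u v := by
  rw [← SimpleGraph.mem_edgeSet, ← h]
  exact (mem_gr S q).2 hq

/-- block `i` links its two hubs -/
def linked (S : Finset P) (i : Fin 5) : Prop :=
  some (i, 0) ∈ S ∨ (some (i, 1) ∈ S ∧ some (i, 2) ∈ S)

/-- the vertex `w_i` is not isolated -/
def att (S : Finset P) (i : Fin 5) : Prop := some (i, 1) ∈ S ∨ some (i, 2) ∈ S

instance (S : Finset P) (i : Fin 5) : Decidable (linked S i) := by unfold linked; infer_instance
instance (S : Finset P) (i : Fin 5) : Decidable (att S i) := by unfold att; infer_instance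

/-- the connectivity criterion -/
def crit (S : Finset P) : Prop :=
  (∀ i, att S i) ∧ (∀ i j, ¬ linked S i → ¬ linked S j → i = j) ∧ (none ∉ S → ∀ i, linked S i)

/-- a closed set of vertices is everything -/
theorem closed_univ (S : Finset P) (hS : (gr S).Connected) (X : VV → Prop)
    (hX : ∀ q ∈ S, ∀ u v, pe q = s(u, v) → (X u ↔ X v)) (u v : VV) (hu : X u) : X v := by
  have h1 : ∀ {u v : VV}, (gr S).Walk u v → (X u → X v) := by
    intro u v p
    induction p with
    | nil => exact id
    | cons h p ih =>
      intro hu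
      apply ih
      rw [← SimpleGraph.mem_edgeSet, gr_edgeSet] at h
      obtain ⟨q, hq, hqe⟩ := h
      exact (hX q hq _ _ hqe).1 hu
  obtain ⟨p⟩ := hS.preconnected u v
  exact h1 p hu

theorem closed_of (S : Finset P) (X : VV → Prop)
    (h0 : none ∈ S → (X (Sum.inl 0) ↔ X (Sum.inl 5)))
    (h1 : ∀ i, some (i, 0) ∈ S → (X (Sum.inl i.castSucc) ↔ X (Sum.inl i.succ)))
    (h2 : ∀ i, some (i, 1) ∈ S → (X (Sum.inl i.castSucc) ↔ X (Sum.inr i)))
    (h3 : ∀ i, some (i, 2) ∈ S → (X (Sum.inr i) ↔ X (Sum.inl i.succ))) :
    ∀ q ∈ S, ∀ u v, pe q = s(u, v) → (X u ↔ X v) := by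
  intro q hq u v h
  rcases q with _ | ⟨i, t⟩
  · have h4 := h0 hq
    simp only [pe, Sym2.eq_iff] at h
    rcases h with ⟨rfl, rfl⟩ | ⟨rfl, rfl⟩
    · exact h4
    · exact h4.symm
  · fin_cases t
    · have h4 := h1 i hq
      simp only [pe, Sym2.eq_iff] at h
      rcases h with ⟨rfl, rfl⟩ | ⟨rfl, rfl⟩
      · exact h4
      · exact h4.symm
    · have h4 := h2 i hq
      simp only [pe, Sym2.eq_iff] at h
      rcases h with ⟨rfl, rfl⟩ | ⟨rfl, rfl⟩
      · exact h4
      · exact h4.symm
    · have h4 := h3 i hq
      simp only [pe, Sym2.eq_iff] at h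
      rcases h with ⟨rfl, rfl⟩ | ⟨rfl, rfl⟩
      · exact h4
      · exact h4.symm

theorem crit_of_conn (S : Finset P) (hS : (gr S).Connected) : crit S := by
  refine ⟨?_, ?_, ?_⟩
  · intro i
    by_contra hcon
    unfold att at hcon
    push Not at hcon
    have := closed_univ S hS (fun v => v = Sum.inr i) (closed_of S _ (by simp) (by simp)
      (by
        intro j hj
        have : j ≠ i := by rintro rfl; exact hcon.1 hj
        simp [this])
      (by
        intro j hj
        have : j ≠ i := by rintro rfl; exact hcon.2 hj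
        simp [this])) (Sum.inr i) (Sum.inl 0) rfl
    simp at this
  · -- two blocks which are not linked
    have key : ∀ i j, ¬ linked S i → ¬ linked S j → i < j → False := by
      intro i j hi hj hij
      unfold linked at hi hj
      push Not at hi hj
      let X : VV → Prop := fun v => match v with
        | Sum.inl l => i.val < l.val ∧ l.val ≤ j.val
        | Sum.inr l => (i.val < l.val ∧ l.val < j.val) ∨ (l = i ∧ some (i, 2) ∈ S) ∨
            (l = j ∧ some (j, 1) ∈ S)
      have hij' : i.val < j.val := hij
      have := closed_univ S hS X (closed_of S X ?_ ?_ ?_ ?_) (Sum.inl i.succ) (Sum.inl 0) ?_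
      · simp [X] at this
      · intro _
        have := j.isLt
        simp only [X]
        constructor
        · intro h; simp at h
        · intro h
          have h5 : ((5 : Fin 6) : ℕ) = 5 := rfl
          rw [h5] at h
          omega
      · intro l hl
        have hli : l ≠ i := by rintro rfl; exact hi.1 hl
        have hlj : l ≠ j := by rintro rfl; exact hj.1 hl
        have hli' : l.val ≠ i.val := fun h => hli (Fin.ext h)
        have hlj' : l.val ≠ j.val := fun h => hlj (Fin.ext h)
        simp only [X, Fin.val_castSucc, Fin.val_succ]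
        omega
      · intro l hl
        simp only [X, Fin.val_castSucc]
        by_cases hli : l = i
        · subst hli
          have h2 : some (l, 2) ∉ S := hi.2 hl
          have h3 : l ≠ j := by rintro rfl; exact lt_irrefl _ hij
          simp [h2, h3]
        · by_cases hlj : l = j
          · subst hlj
            simp [hl, hij']
          · have hli' : l.val ≠ i.val := fun h => hli (Fin.ext h)
            have hlj' : l.val ≠ j.val := fun h => hlj (Fin.ext h)
            simp only [hli, hlj, false_and, or_false]
            omega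
      · intro l hl
        simp only [X, Fin.val_succ]
        by_cases hli : l = i
        · subst hli
          simp [hl]
          omega
        · by_cases hlj : l = j
          · subst hlj
            have h2 : some (l, 1) ∉ S := fun h => hj.2 h hl
            simp [h2, hli]
          · have hli' : l.val ≠ i.val := fun h => hli (Fin.ext h)
            have hlj' : l.val ≠ j.val := fun h => hlj (Fin.ext h)
            simp only [hli, hlj, false_and, or_false]
            omega
      · simp only [X, Fin.val_succ]
        omega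
    intro i j hi hj
    rcases lt_trichotomy i j with h | h | h
    · exact (key i j hi hj h).elim
    · exact h
    · exact (key j i hj hi h).elim
  · intro hn i
    by_contra hi
    unfold linked at hi
    push Not at hi
    let X : VV → Prop := fun v => match v with
      | Sum.inl l => l.val ≤ i.val
      | Sum.inr l => l.val < i.val ∨ (l = i ∧ some (i, 1) ∈ S)
    have := closed_univ S hS X (closed_of S X (fun h => (hn h).elim) ?_ ?_ ?_) (Sum.inl 0)
      (Sum.inl 5) ?_
    · have h5 : ((5 : Fin 6) : ℕ) = 5 := rfl
      simp only [X] at this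
      rw [h5] at this
      omega
    · intro l hl
      have hli : l ≠ i := by rintro rfl; exact hi.1 hl
      have hli' : l.val ≠ i.val := fun h => hli (Fin.ext h)
      simp only [X, Fin.val_castSucc, Fin.val_succ]
      omega
    · intro l hl
      simp only [X, Fin.val_castSucc]
      by_cases hli : l = i
      · subst hli
        simp [hl]
      · have hli' : l.val ≠ i.val := fun h => hli (Fin.ext h)
        simp only [hli, false_and, or_false]
        omega
    · intro l hl
      simp only [X, Fin.val_succ]
      by_cases hli : l = i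
      · subst hli
        have h2 : some (l, 1) ∉ S := fun h => hi.2 h hl
        simp [h2]
      · have hli' : l.val ≠ i.val := fun h => hli (Fin.ext h)
        simp only [hli, false_and, or_false]
        omega
    · simp [X]

theorem linked_reach (S : Finset P) (i : Fin 5) (h : linked S i) :
    (gr S).Reachable (Sum.inl i.castSucc) (Sum.inl i.succ) := by
  rcases h with h | ⟨h1, h2⟩
  · exact (adj_of S h rfl).reachable
  · exact (adj_of S h1 rfl).reachable.trans (adj_of S h2 rfl).reachable

theorem reach_range (S : Finset P) (a : ℕ) : ∀ (d : ℕ) (hb : a + d < 6),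
    (∀ i : Fin 5, a ≤ i.val → i.val < a + d → linked S i) →
    (gr S).Reachable (Sum.inl (⟨a, by omega⟩ : Fin 6)) (Sum.inl (⟨a + d, hb⟩ : Fin 6)) := by
  intro d
  induction d with
  | zero => intro hb _; exact SimpleGraph.Reachable.refl _
  | succ d ih =>
    intro hb h
    have h1 := ih (by omega) (fun i hi hi' => h i hi (by omega))
    have h2 := linked_reach S ⟨a + d, by omega⟩ (h _ (by simp) (by simp))
    exact h1.trans h2

theorem conn_of_crit (S : Finset P) (h : crit S) : (gr S).Connected := by
  obtain ⟨h1, h2, h3⟩ := h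
  have hubs : ∀ l : Fin 6, (gr S).Reachable (Sum.inl 0) (Sum.inl l) := by
    by_cases hall : ∀ i, linked S i
    · intro l
      have := reach_range S 0 l.val (by omega) (fun i _ _ => hall i)
      have e1 : (⟨0 + l.val, by omega⟩ : Fin 6) = l := Fin.ext (by simp)
      rw [e1] at this
      exact this
    · push Not at hall
      obtain ⟨i, hi⟩ := hall
      have hn : none ∈ S := by
        by_contra hn
        exact hi (h3 hn i)
      have hlink : ∀ j : Fin 5, j.val ≠ i.val → linked S j := by
        intro j hj
        by_contra hcon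
        exact hj (congrArg Fin.val (h2 j i hcon hi))
      intro l
      by_cases hl : l.val ≤ i.val
      · have := reach_range S 0 l.val (by omega) (fun j _ hj => hlink j (by omega))
        have e1 : (⟨0 + l.val, by omega⟩ : Fin 6) = l := Fin.ext (by simp)
        rw [e1] at this
        exact this
      · push Not at hl
        have h4 := reach_range S l.val (5 - l.val) (by omega) (fun j hj _ => hlink j (by omega))
        have e1 : (⟨l.val + (5 - l.val), by omega⟩ : Fin 6) = 5 := Fin.ext (by
          show l.val + (5 - l.val) = 5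
          omega)
        rw [e1] at h4
        have h5 : (gr S).Adj (Sum.inl 0) (Sum.inl 5) := adj_of S hn rfl
        exact h5.reachable.trans h4.symm
  have hall : ∀ v : VV, (gr S).Reachable (Sum.inl 0) v := by
    rintro (l | i)
    · exact hubs l
    · rcases h1 i with h | h
      · exact (hubs _).trans (adj_of S h rfl).reachable
      · exact (hubs _).trans (adj_of S h rfl).symm.reachable
  rw [SimpleGraph.connected_iff]
  exact ⟨fun u v => (hall u).symm.trans (hall v), ⟨Sum.inl 0⟩⟩

/-! ### Counting -/

/-- state of one block -/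
abbrev T := Bool × Bool × Bool

/-- which edges are present -/
def onE (b : Bool) (f : Fin 5 → T) : P → Bool
  | none => b
  | some (i, 0) => (f i).1
  | some (i, 1) => (f i).2.1
  | some (i, 2) => (f i).2.2

/-- the edge set with hub edge `b` and block states `f` -/
def mkS (b : Bool) (f : Fin 5 → T) : Finset P := univ.filter (fun q => onE b f q = true)

theorem mem_mkS (b : Bool) (f : Fin 5 → T) (q : P) : q ∈ mkS b f ↔ onE b f q = true := by
  unfold mkS
  rw [Finset.mem_filter]
  exact ⟨fun h => h.2, fun h => ⟨mem_univ _, h⟩⟩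

theorem mkS_none (b : Bool) (f : Fin 5 → T) : none ∈ mkS b f ↔ b = true := mem_mkS b f none
theorem mkS_0 (b : Bool) (f : Fin 5 → T) (i : Fin 5) : some (i, 0) ∈ mkS b f ↔ (f i).1 = true :=
  mem_mkS b f _
theorem mkS_1 (b : Bool) (f : Fin 5 → T) (i : Fin 5) : some (i, 1) ∈ mkS b f ↔ (f i).2.1 = true :=
  mem_mkS b f _
theorem mkS_2 (b : Bool) (f : Fin 5 → T) (i : Fin 5) : some (i, 2) ∈ mkS b f ↔ (f i).2.2 = true :=
  mem_mkS b f _

/-- number of edges of a state -/
def pop (x : T) : ℕ := x.1.toNat + x.2.1.toNat + x.2.2.toNat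

/-- state links its hubs -/
def lk (x : T) : Bool := x.1 || (x.2.1 && x.2.2)
/-- state attaches its vertex -/
def at' (x : T) : Bool := x.2.1 || x.2.2

/-- weight of a state -/
def w (x : T) : ℕ := pop x + 100 * (!lk x).toNat + 10000 * (!at' x).toNat

theorem mkS_card (b : Bool) (f : Fin 5 → T) : (mkS b f).card = b.toNat + ∑ i, pop (f i) := by
  unfold mkS
  rw [Finset.card_filter, Fintype.sum_option, Fintype.sum_prod_type]
  congr 1
  · cases b <;> simp [onE]
  · refine Finset.sum_congr rfl fun i _ => ?_
    rw [Fin.sum_univ_three]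
    have h0 : onE b f (some (i, 0)) = (f i).1 := rfl
    have h1 : onE b f (some (i, 1)) = (f i).2.1 := rfl
    have h2 : onE b f (some (i, 2)) = (f i).2.2 := rfl
    rw [h0, h1, h2]
    unfold pop
    rcases f i with ⟨x, y, z⟩
    cases x <;> cases y <;> cases z <;> simp

theorem linked_mkS (b : Bool) (f : Fin 5 → T) (i : Fin 5) :
    linked (mkS b f) i ↔ lk (f i) = true := by
  unfold linked lk
  rw [mkS_0, mkS_1, mkS_2]
  simp

theorem att_mkS (b : Bool) (f : Fin 5 → T) (i : Fin 5) :
    att (mkS b f) i ↔ at' (f i) = true := by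
  unfold att at'
  rw [mkS_1, mkS_2]
  simp

theorem sum_w (f : Fin 5 → T) : ∑ i, w (f i) = ∑ i, pop (f i) +
    100 * ∑ i, (!lk (f i)).toNat + 10000 * ∑ i, (!at' (f i)).toNat := by
  unfold w
  rw [Finset.sum_add_distrib, Finset.sum_add_distrib, Finset.mul_sum, Finset.mul_sum]

theorem sum_pop_le (f : Fin 5 → T) : ∑ i, pop (f i) ≤ 15 := by
  have h : ∀ x : T, pop x ≤ 3 := by decide
  refine (Finset.sum_le_sum fun i _ => h (f i)).trans ?_
  simp

theorem sum_toNat_le (g : Fin 5 → Bool) : ∑ i, (g i).toNat ≤ 5 := by
  have h : ∀ x : Bool, x.toNat ≤ 1 := by decide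
  refine (Finset.sum_le_sum fun i _ => h (g i)).trans ?_
  simp

theorem crit_mkS (b : Bool) (f : Fin 5 → T) : crit (mkS b f) ↔
    (∑ i, (!at' (f i)).toNat = 0) ∧ (∑ i, (!lk (f i)).toNat ≤ b.toNat) := by
  unfold crit
  simp only [linked_mkS, att_mkS, mkS_none]
  have e1 : (∀ i, at' (f i) = true) ↔ ∑ i, (!at' (f i)).toNat = 0 := by
    rw [Finset.sum_eq_zero_iff]
    constructor
    · intro h i _
      simp [h i]
    · intro h i
      have := h i (mem_univ i)
      cases h2 : at' (f i)
      · rw [h2] at this; simp at this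
      · rfl
  rw [e1]
  refine and_congr_right fun _ => ?_
  have hcard : ∑ i, (!lk (f i)).toNat = (univ.filter (fun i => ¬ lk (f i) = true)).card := by
    rw [Finset.card_filter]
    refine Finset.sum_congr rfl fun i _ => ?_
    cases lk (f i) <;> simp
  rw [hcard]
  cases b
  · simp only [Bool.false_eq_true, not_false_eq_true, forall_const, Bool.toNat_false,
      Nat.le_zero, Finset.card_eq_zero, Finset.filter_eq_empty_iff, mem_univ, not_not]
    constructor
    · rintro ⟨-, h⟩ i
      exact h i
    · intro h
      exact ⟨fun i j hi _ => absurd (h i) hi, fun i => h i⟩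
  · simp only [not_true_eq_false, false_imp_iff, and_true, Bool.toNat_true]
    rw [Finset.card_le_one]
    simp only [mem_filter, mem_univ, true_and]
    constructor
    · intro h i hi j hj
      exact h i j hi hj
    · intro h i j hi hj
      exact h i hi j hj

theorem mkS_bij : Function.Bijective (fun c : Bool × (Fin 5 → T) => mkS c.1 c.2) := by
  constructor
  · rintro ⟨b, f⟩ ⟨b', f'⟩ h
    have h' : mkS b f = mkS b' f' := h
    have hb : b = b' := by
      have := (mkS_none b f).symm.trans ((Finset.ext_iff.1 h' none).trans (mkS_none b' f'))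
      exact Bool.eq_iff_iff.2 this
    have hf : f = f' := by
      funext i
      have h0 := (mkS_0 b f i).symm.trans ((Finset.ext_iff.1 h' _).trans (mkS_0 b' f' i))
      have h1 := (mkS_1 b f i).symm.trans ((Finset.ext_iff.1 h' _).trans (mkS_1 b' f' i))
      have h2 := (mkS_2 b f i).symm.trans ((Finset.ext_iff.1 h' _).trans (mkS_2 b' f' i))
      exact Prod.ext (Bool.eq_iff_iff.2 h0) (Prod.ext (Bool.eq_iff_iff.2 h1) (Bool.eq_iff_iff.2 h2))
    rw [hb, hf]
  · intro S
    refine ⟨(decide (none ∈ S), fun i => (decide (some (i, 0) ∈ S), decide (some (i, 1) ∈ S),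
      decide (some (i, 2) ∈ S))), ?_⟩
    ext q
    rcases q with _ | ⟨i, t⟩
    · rw [mkS_none]; simp
    · fin_cases t
      · exact (mkS_0 _ _ i).trans (by simp)
      · exact (mkS_1 _ _ i).trans (by simp)
      · exact (mkS_2 _ _ i).trans (by simp)

/-- counting functions with given total weight -/
def C : ℕ → ℕ → ℕ
  | 0, t => if t = 0 then 1 else 0
  | N + 1, t => ∑ x : T, if w x ≤ t then C N (t - w x) else 0

theorem C_spec (N : ℕ) : ∀ t : ℕ, (univ.filter (fun f : Fin N → T => ∑ i, w (f i) = t)).card =
    C N t := by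
  induction N with
  | zero =>
    intro t
    unfold C
    by_cases h : t = 0
    · subst h; simp
    · rw [if_neg h, Finset.card_eq_zero, Finset.filter_eq_empty_iff]
      intro f _ h2
      simp at h2
      exact h h2.symm
  | succ N ih =>
    intro t
    rw [Finset.card_filter, ← (Fin.consEquiv (fun _ => T)).sum_comp, Fintype.sum_prod_type]
    unfold C
    refine Finset.sum_congr rfl fun x _ => ?_
    by_cases hx : w x ≤ t
    · rw [if_pos hx, ← ih, Finset.card_filter]
      refine Finset.sum_congr rfl fun g _ => ?_
      have : (∑ i, w ((Fin.consEquiv (fun _ => T)) (x, g) i) = t) ↔ ∑ i, w (g i) = t - w x := by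
        rw [Fin.sum_univ_succ]
        simp only [Fin.consEquiv_apply, Fin.cons_zero, Fin.cons_succ]
        omega
      simp only [this]
    · rw [if_neg hx]
      refine Finset.sum_eq_zero fun g _ => ?_
      rw [if_neg]
      rw [Fin.sum_univ_succ]
      simp only [Fin.consEquiv_apply, Fin.cons_zero, Fin.cons_succ]
      omega

open Classical in
/-- number of good edge sets with `c` edges and hub edge `b` -/
theorem count_b (b : Bool) (c : ℕ) (hc : c < 50) :
    (univ.filter (fun f : Fin 5 → T => crit (mkS b f) ∧ (mkS b f).card = c + b.toNat)).card =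
      C 5 c + b.toNat * C 5 (c + 100) := by
  rw [← C_spec, ← C_spec]
  cases b
  · simp only [Bool.toNat_false, zero_mul, add_zero]
    congr 1
    ext f
    simp only [mem_filter, mem_univ, true_and, crit_mkS, mkS_card, sum_w, Bool.toNat_false]
    have h1 := sum_pop_le f
    have h2 := sum_toNat_le (fun i => !lk (f i))
    have h3 := sum_toNat_le (fun i => !at' (f i))
    omega
  · simp only [Bool.toNat_true, one_mul]
    rw [← Finset.card_union_of_disjoint]
    · congr 1
      ext f
      simp only [mem_filter, mem_univ, true_and, crit_mkS, mkS_card, sum_w, Bool.toNat_true,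
        mem_union]
      have h1 := sum_pop_le f
      have h2 := sum_toNat_le (fun i => !lk (f i))
      have h3 := sum_toNat_le (fun i => !at' (f i))
      omega
    · rw [Finset.disjoint_filter]
      intro f _ h1 h2
      omega

theorem connSub_eq (k : ℤ) :
    connSub K k = gr '' {S : Finset P | crit S ∧ (S.card : ℤ) = 11 + k} := by
  ext H
  constructor
  · rintro ⟨h1, h2, h3⟩
    obtain ⟨S, rfl⟩ := exists_gr H h1
    refine ⟨S, ⟨crit_of_conn S h2, ?_⟩, rfl⟩
    rw [gr_ncard] at h3
    exact h3
  · rintro ⟨S, ⟨h1, h2⟩, rfl⟩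
    refine ⟨gr_mono (Finset.subset_univ _), conn_of_crit S h1, ?_⟩
    rw [gr_ncard]
    exact h2

open Classical in
/-- number with hub edge `b` and `c + b` edges -/
theorem count_part (b : Bool) (c : ℕ) (hc : c < 50) :
    {S : Finset P | crit S ∧ S.card = c + b.toNat ∧ (none ∈ S ↔ b = true)}.ncard =
      C 5 c + b.toNat * C 5 (c + 100) := by
  rw [← count_b b c hc]
  have h1 : {S : Finset P | crit S ∧ S.card = c + b.toNat ∧ (none ∈ S ↔ b = true)} =
      (fun f : Fin 5 → T => mkS b f) ''
        {f | crit (mkS b f) ∧ (mkS b f).card = c + b.toNat} := by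
    ext S
    constructor
    · rintro ⟨h1, h2, h3⟩
      obtain ⟨⟨b', f⟩, hbf⟩ := mkS_bij.2 S
      have hbf' : mkS b' f = S := hbf
      have : b' = b := by
        rw [← hbf', mkS_none] at h3
        exact Bool.eq_iff_iff.2 h3
      subst this
      subst hbf'
      exact ⟨f, ⟨h1, h2⟩, rfl⟩
    · rintro ⟨f, ⟨h1, h2⟩, rfl⟩
      exact ⟨h1, h2, mkS_none b f⟩
  have hinj : Function.Injective (fun f : Fin 5 → T => mkS b f) := by
    intro f f' h
    have := mkS_bij.1 (a₁ := (b, f)) (a₂ := (b, f')) h
    exact (Prod.ext_iff.1 this).2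
  rw [h1, Set.ncard_image_of_injective _ hinj, ← Set.ncard_coe_finset]
  congr 1
  ext f
  simp

theorem cA1 : C 5 9 + 1 * C 5 (9 + 100) = 810 := by decide +kernel
theorem cA2 : C 5 10 + 1 * C 5 (10 + 100) = 1323 := by decide +kernel
theorem cB1 : C 5 10 + 0 * C 5 (10 + 100) = 243 := by decide +kernel
theorem cB2 : C 5 11 + 0 * C 5 (11 + 100) = 405 := by decide +kernel

theorem hub_count (k : ℤ) (c : ℕ) (hc : c < 50) (hk : 11 + k = c + 1) :
    {H | H ∈ connSub K k ∧ pe none ∈ H.edgeSet}.ncard = C 5 c + 1 * C 5 (c + 100) := by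
  have h0 := count_part true c hc
  rw [Bool.toNat_true] at h0
  rw [← h0]
  have h1 : {H | H ∈ connSub K k ∧ pe none ∈ H.edgeSet} =
      gr '' {S : Finset P | crit S ∧ S.card = c + 1 ∧ (none ∈ S ↔ true = true)} := by
    rw [connSub_eq]
    ext H
    constructor
    · rintro ⟨⟨S, ⟨h1, h2⟩, rfl⟩, h3⟩
      refine ⟨S, ⟨h1, by omega, by simpa using (mem_gr S none).1 h3⟩, rfl⟩
    · rintro ⟨S, ⟨h1, h2, h3⟩, rfl⟩
      refine ⟨⟨S, ⟨h1, by omega⟩, rfl⟩, (mem_gr S none).2 (h3.2 rfl)⟩
  rw [h1, Set.ncard_image_of_injective _ gr_injective]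

theorem all_count (k : ℤ) (c : ℕ) (hc : c + 1 < 50) (hk : 11 + k = c + 1) :
    (connSub K k).ncard = (C 5 c + 1 * C 5 (c + 100)) + (C 5 (c + 1) + 0 * C 5 (c + 1 + 100)) := by
  have h0 := count_part true c (by omega)
  have h0' := count_part false (c + 1) hc
  rw [Bool.toNat_true] at h0
  rw [Bool.toNat_false] at h0'
  rw [← h0, ← h0', connSub_eq, Set.ncard_image_of_injective _ gr_injective,
    ← Set.ncard_union_eq]
  · congr 1
    ext S
    simp only [Set.mem_ofPred_eq, Set.mem_union, add_zero]
    by_cases hn : none ∈ S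
    · simp only [hn, Bool.false_eq_true, iff_false, not_true_eq_false, and_false,
        or_false, and_true]
      refine and_congr_right fun _ => ?_
      omega
    · simp only [hn, false_iff, not_true_eq_false, and_false, false_or, Bool.false_eq_true,
        and_true]
      refine and_congr_right fun _ => ?_
      omega
  · rw [Set.disjoint_left]
    rintro S ⟨-, -, h1⟩ ⟨-, -, h2⟩
    simp only [iff_true, Bool.false_eq_true, iff_false] at h1 h2
    exact h2 h1

/-- **Disproof.** It is not true that for every finite connected graph and every edge `e` the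
marginal `p_e(k)` of the uniform connected spanning subgraph of excess `k` is nondecreasing in `k`.
(Chain of five triangles closed by an edge `e`, `k = -1`: `810/1053 > 1323/1728`.) -/
theorem result :
    ¬ ∀ (V : Type) [Fintype V] (G : SimpleGraph V), G.Connected → ∀ e ∈ G.edgeSet, ∀ k : ℤ,
      -1 ≤ k → k < (G.edgeSet.ncard : ℤ) - Fintype.card V → marg G k e ≤ marg G (k + 1) e := by
  intro h
  have hcrit : crit (univ : Finset P) := by
    refine ⟨fun i => Or.inl (mem_univ _), fun i j hi _ => ?_, fun h => absurd (mem_univ _) h⟩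
    exact absurd (Or.inl (mem_univ _)) hi
  have hcardV : Fintype.card VV = 11 := by
    rw [Fintype.card_sum]; simp
  have h1 := h VV K (conn_of_crit univ hcrit) (pe none) ((mem_gr univ none).2 (mem_univ _)) (-1)
    le_rfl (by
      unfold K
      rw [gr_ncard, hcardV, Finset.card_univ, Fintype.card_option, Fintype.card_prod]
      simp)
  unfold marg at h1
  rw [hub_count (-1) 9 (by norm_num) (by norm_num), all_count (-1) 9 (by norm_num) (by norm_num),
    hub_count (-1 + 1) 10 (by norm_num) (by norm_num),
    all_count (-1 + 1) 10 (by norm_num) (by norm_num), cA1, cA2] at h1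
  have e1 : C 5 (9 + 1) + 0 * C 5 (9 + 1 + 100) = 243 := cB1
  have e2 : C 5 (10 + 1) + 0 * C 5 (10 + 1 + 100) = 405 := cB2
  rw [e1, e2] at h1
  norm_num at h1

end Pool.Agent.Results.MP_7fb2f0_pr.TriangleChain
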